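import Pool.Agent.H32.Ba4

set_option autoImplicit false

namespace Pool.Agent.Results.MP_b6c00a_lc.Decidable

open Pool.Agent.H32.Ba

/-- For every number of players, the set of Goedel numbers of valid formulas is decidable. -/
theorem result (p : ℕ) : ComputablePred fun n : ℕ => ∃ φ : Fm p, φ.code = n ∧ Valid φ :=
  decid p

end Pool.Agent.Results.MP_b6c00a_lc.Decidable
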